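import Mathlib
import Pool.Agent.H10.TpC

set_option autoImplicit false

namespace Pool.Agent.Results.MP_c563b5_an.NoBound
open Pool.Agent.H10.Tp

theorem result (d : ℝ) : ∃ (n : ℕ) (c : ℝ) (x : Fin n → ℝ), 2 ≤ n ∧ c ≠ 0 ∧ Monotone x ∧
    TP (fun k => c * ∏ i, ((k : ℝ) - x i)) ∧
    ∃ (j : ℕ) (h : j + 1 < n), d < x ⟨j + 1, h⟩ - x ⟨j, by omega⟩ := by
  obtain ⟨j, hj⟩ := exists_nat_gt d
  obtain ⟨m, hm⟩ := main j
  refine ⟨m + 1 + 2, 1, fun i => if i.1 < m + 1 then -(1 / 2) else (2 * j + 1 : ℕ) + 1 / 2, by omega,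
    one_ne_zero, fun a b h => ?_, ?_, m, by omega, ?_⟩
  · have : a.1 ≤ b.1 := h
    have : (0 : ℝ) ≤ (2 * j + 1 : ℕ) := by positivity
    dsimp only
    split_ifs <;> first | omega | linarith
  · convert hm using 2 with k
    rw [Fin.prod_univ_add]
    simp [Fin.is_le]
    ring
  · simp
    linarith [j.cast_nonneg (α := ℝ)]

end Pool.Agent.Results.MP_c563b5_an.NoBound
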